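import Mathlib

namespace Pool.Agent.Results.MP_ec79a8_nt.Yes

open Nat Finset Polynomial

/-- the sequence `a(n)` of the problem -/
def a (n : ℕ) : ℕ := ∑ j ∈ range (n + 1), n.choose j * (n - j).choose j * (n + j).choose j

lemma ch (a b n : ℕ) (h : n = a + b) : (n.choose a : ℚ) = n ! / (a ! * b !) := by
  subst h; rw [Nat.cast_choose ℚ (by omega), Nat.add_sub_cancel_left]

lemma term (n i : ℕ) : n.choose i * (n - i).choose i * (n + i).choose i =
    (3 * i).choose i * centralBinom i * (n + i).choose (3 * i) := by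
  rcases lt_or_ge n (2 * i) with h | h
  · rw [Nat.choose_eq_zero_of_lt (show n + i < 3 * i by omega)]
    rcases lt_or_ge n i with h | h
    · simp [Nat.choose_eq_zero_of_lt h]
    · simp [Nat.choose_eq_zero_of_lt (show n - i < i by omega)]
  · obtain ⟨r, rfl⟩ := Nat.exists_eq_add_of_le h
    apply Nat.cast_injective (R := ℚ)
    push_cast
    rw [show 2 * i + r - i = i + r by omega, centralBinom, ch i (i + r) _ (by ring), ch i r _ rfl,
      ch i (2 * i + r) _ (by ring), ch i (2 * i) _ (by ring), ch i i _ (by ring),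
      ch (3 * i) r _ (by ring)]
    field_simp

lemma hock (i p : ℕ) : ∑ n ∈ range p, (n + i).choose (3 * i) + i.choose (3 * i + 1) =
    (p + i).choose (3 * i + 1) := by
  induction p with
  | zero => simp
  | succ p ih => rw [sum_range_succ, add_right_comm p 1 i, Nat.choose_succ_succ', ← ih]; ring

def b (p i : ℕ) : ℕ := (3 * i).choose i * centralBinom i * (p + i).choose (3 * i + 1)

lemma sum_a (h : ℕ) : ∑ n ∈ range (2 * h + 1), a n = ∑ i ∈ range (h + 1), b (2 * h + 1) i := by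
  have e : ∀ n ∈ range (2 * h + 1), a n = ∑ i ∈ range (2 * h + 1),
      (3 * i).choose i * centralBinom i * (n + i).choose (3 * i) := fun n hn => by
    rw [a, sum_congr rfl fun i _ => term n i]
    exact sum_subset (range_subset_range.2 (mem_range.1 hn)) fun i _ hi => by
      rw [Nat.choose_eq_zero_of_lt (show n + i < 3 * i by simp at hi; omega), mul_zero]
  rw [sum_congr rfl e, sum_comm]
  refine (sum_congr rfl fun i _ => ?_).trans (sum_subset (range_subset_range.2 (by omega))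
    fun i _ hi => ?_).symm
  · rw [← mul_sum, b, ← hock, Nat.choose_eq_zero_of_lt (show i < 3 * i + 1 by omega), add_zero]
  · rw [b, Nat.choose_eq_zero_of_lt (show 2 * h + 1 + i < 3 * i + 1 by simp at hi; omega), mul_zero]

lemma b_eq (N i : ℕ) (h : 2 * i ≤ N) : (3 * i + 1) * b (N + 1) i =
    (N + 1) * ((N + 1 + i).choose i * N.choose (2 * i) * centralBinom i) := by
  obtain ⟨r, rfl⟩ := Nat.exists_eq_add_of_le h
  apply Nat.cast_injective (R := ℚ)
  unfold b
  push_cast
  rw [ch i (2 * i) _ (by ring), ch (3 * i + 1) r _ (by ring), ch i (2 * i + r + 1) _ (by ring),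
    ch (2 * i) r _ rfl, factorial_succ (3 * i), factorial_succ (2 * i + r)]
  push_cast
  field_simp

variable {F : Type*} [Field F]

lemma beta (h : ℕ) (x : F) (hx : ∀ i ≤ h, x + i ≠ 0) :
    (∑ i ∈ range (h + 1), (h.choose i : F) * ((-1) ^ i / (x + i))) * ∏ i ∈ range (h + 1), (x + i) =
      h ! := by
  induction h generalizing x with
  | zero => have := hx 0 le_rfl; simp at this ⊢; field_simp
  | succ h ih =>
    have h1 := ih x fun i hi => hx i (by omega)
    have h2 := ih (x + 1) fun i hi => by have := hx (i + 1) (by omega); push_cast at this; rwa [add_assoc, add_comm 1]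
    have e := Finset.sum_choose_succ_mul (fun i _ => ((-1 : F) ^ i / (x + i))) h
    have e2 : ∑ i ∈ range (h + 1), (h.choose i : F) * ((-1) ^ (i + 1) / (x + ((i + 1 : ℕ) : F))) =
        -∑ i ∈ range (h + 1), (h.choose i : F) * ((-1) ^ i / (x + 1 + i)) := by
      rw [← sum_neg_distrib]
      exact sum_congr rfl fun i _ => by push_cast; rw [add_assoc, add_comm 1]; ring
    have p1 := prod_range_succ (fun i : ℕ => x + i) (h + 1)
    have p2 := prod_range_succ' (fun i : ℕ => x + i) (h + 1)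
    rw [prod_congr rfl fun i _ => show x + ((i + 1 : ℕ) : F) = x + 1 + i by push_cast; ring] at p2
    rw [e, e2, add_mul, factorial_succ]
    nth_rewrite 1 [p1]
    rw [p2]
    push_cast
    linear_combination (x + (h + 1)) * h1 - x * h2

lemma cb_prod (h m : ℕ) (hh : (2 * h + 1 : F) = 0) (hm : ∀ j < m, (j + 1 : F) ≠ 0) :
    (centralBinom m : F) * h ! = 4 ^ m * ∏ i ∈ range h, ((m : F) + ((i + 1 : ℕ) : F)) := by
  induction m with
  | zero => simp [← Finset.prod_range_add_one_eq_factorial]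
  | succ m ih =>
    have ih := ih fun j hj => hm j (by omega)
    have c := congrArg (Nat.cast : ℕ → F) (Nat.succ_mul_centralBinom_succ m)
    have p1 := prod_range_succ (fun i : ℕ => (m : F) + ((i + 1 : ℕ) : F)) h
    have p2 := prod_range_succ' (fun i : ℕ => (m : F) + ((i + 1 : ℕ) : F)) h
    rw [p1, prod_congr rfl fun i _ => show (m : F) + ((i + 1 + 1 : ℕ) : F) =
      ((m + 1 : ℕ) : F) + ((i + 1 : ℕ) : F) by push_cast; ring] at p2
    apply mul_left_cancel₀ (hm m (by omega))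
    generalize ∏ i ∈ range h, (((m + 1 : ℕ) : F) + ((i + 1 : ℕ) : F)) = B at p2 ⊢
    generalize ∏ i ∈ range h, ((m : F) + ((i + 1 : ℕ) : F)) = A at p2 ih
    push_cast at c p2 ⊢
    linear_combination (h ! : F) * c + 2 * (2 * m + 1) * ih + 4 ^ (m + 1) * p2 - 2 * 4 ^ m * A * hh

lemma cb_choose (h i : ℕ) (hh : (2 * h + 1 : F) = 0) (hi : i ≤ h) (hm : ∀ j < i, (j + 1 : F) ≠ 0) :
    (centralBinom i : F) = h.choose i * (-4) ^ i := by
  induction i with
  | zero => simp
  | succ m ih =>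
    have ih := ih (by omega) fun j hj => hm j (by omega)
    have c := congrArg (Nat.cast : ℕ → F) (Nat.succ_mul_centralBinom_succ m)
    have d := congrArg (Nat.cast : ℕ → F) (Nat.choose_succ_right_eq h m)
    rw [Nat.cast_mul, Nat.cast_mul, Nat.cast_sub (by omega)] at d
    apply mul_left_cancel₀ (hm m (by omega))
    push_cast at c d
    linear_combination c + 2 * (2 * m + 1) * ih - (-4) ^ (m + 1) * d +
      2 * (h.choose m : F) * (-4) ^ m * hh

lemma pow_der (f : F[X]) (n : ℕ) : f * derivative (f ^ n) = n * derivative f * f ^ n := by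
  cases n with
  | zero => simp
  | succ n => rw [derivative_pow_succ]; simp only [map_add, map_natCast, map_one]; push_cast; ring

noncomputable def pt (h : ℕ) (g : ℕ → F) (i : ℕ) : F[X] :=
  C (g i) * (27 ^ (h - i) * ((1 - X) ^ (3 * i + 1) * X ^ (2 * (h - i))) +
    (-1) ^ h * ((X + 2) ^ (2 * h + 1) * X ^ i))

noncomputable def ph (h : ℕ) (g : ℕ → F) : F[X] := ∑ i ∈ range (h + 1), pt h g i

lemma ph_ode (h : ℕ) (g : ℕ → F) (hh : (2 * h + 1 : F) = 0)
    (hg : ∀ i ≤ h, (3 * i + 1) * g i = h.choose i * (-4) ^ i) :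
    ph h g + 3 * (X * derivative (ph h g)) = 0 := by
  have hh' : (2 * h + 1 : F[X]) = 0 := by simpa [map_ofNat] using congrArg C hh
  have e : ∀ i ∈ range (h + 1), pt h g i + 3 * (X * derivative (pt h g i)) = (X + 2) * ((-1) ^ h * (X + 2) ^ (2 * h) *
      ((-4 * X) ^ i * 1 ^ (h - i) * (h.choose i : F[X])) -
      (-4 * (1 - X) ^ 3) ^ i * (27 * X ^ 2) ^ (h - i) * (h.choose i : F[X])) := fun i hi => by
    obtain ⟨j, rfl⟩ : ∃ j, h = i + j := ⟨h - i, by have := mem_range.1 hi; omega⟩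
    have h0 : (3 * i + 1) * C (g i) = ((i + j).choose i : F[X]) * (-4) ^ i := by
      simpa [map_ofNat] using congrArg C (hg i (by omega))
    have h1 := pow_der (X : F[X]) i
    have h2 := pow_der (X : F[X]) (2 * j)
    have d1 : derivative ((27 : F[X]) ^ j) = 0 := by
      rw [show (27 : F[X]) ^ j = C (27 ^ j) by simp [map_ofNat], derivative_C]
    have d2 : derivative ((-1 : F[X]) ^ (i + j)) = 0 := by
      rw [show (-1 : F[X]) ^ (i + j) = C ((-1) ^ (i + j)) by simp, derivative_C]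
    rw [pt, Nat.add_sub_cancel_left]
    simp only [derivative_mul, derivative_add, derivative_C, d1, d2, derivative_pow_succ,
      derivative_sub, derivative_one, derivative_X, derivative_ofNat, map_add, map_natCast, map_one]
      at h1 h2 ⊢
    rw [mul_pow, mul_pow, mul_pow, ← pow_mul, ← pow_mul, pow_succ, pow_succ]
    push_cast at h2 hh' ⊢
    linear_combination (3 * C (g i) * 27 ^ j * (1 - X) ^ (3 * i) * (1 - X)) * h2 +
      (3 * C (g i) * (-1) ^ (i + j) * (X + 2) ^ (2 * (i + j)) * (X + 2)) * h1 +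
      (X + 2) * ((-1) ^ (i + j) * (X + 2) ^ (2 * (i + j)) * X ^ i -
        (1 - X) ^ (3 * i) * 27 ^ j * X ^ (2 * j)) * h0 +
      (3 * C (g i)) * (27 ^ j * (1 - X) ^ (3 * i) * (1 - X) * X ^ (2 * j) +
        X * (-1) ^ (i + j) * (X + 2) ^ (2 * (i + j)) * X ^ i) * hh'
  rw [ph, derivative_sum, mul_sum, mul_sum, ← sum_add_distrib, sum_congr rfl e, ← mul_sum,
    sum_sub_distrib, ← mul_sum, ← add_pow, ← add_pow, pow_mul, ← mul_pow, ← mul_pow,
    show (-1 * (X + 2) ^ 2 * (-4 * X + 1) : F[X]) = -4 * (1 - X) ^ 3 + 27 * X ^ 2 by ring, sub_self,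
    mul_zero]

lemma ph_deg (h : ℕ) (g : ℕ → F) : (ph h g).natDegree ≤ 3 * h + 1 := by
  refine natDegree_sum_le_of_forall_le _ _ fun i hi => ?_
  have := mem_range.1 hi
  unfold pt
  compute_degree
  omega

lemma main (s : ℕ) [hp : Fact (6 * s + 5).Prime] (g : ℕ → ZMod (6 * s + 5))
    (hg : ∀ i ≤ 3 * s + 2, (3 * i + 1) * g i = (3 * s + 2).choose i * (-4) ^ i) :
    (∑ i ∈ range (3 * s + 2 + 1), g i) * centralBinom (2 * s + 2) = 2 := by
  have nz : ∀ j : ℕ, ¬ 6 * s + 5 ∣ j → (j : ZMod (6 * s + 5)) ≠ 0 := fun j h h' =>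
    h ((ZMod.natCast_eq_zero_iff _ _).1 h')
  have nz' : ∀ j : ℕ, 0 < j → j < 6 * s + 5 → (j : ZMod (6 * s + 5)) ≠ 0 := fun j h0 h1 =>
    nz j fun h => absurd (Nat.le_of_dvd h0 h) (by omega)
  have p0 : (6 * s + 5 : ZMod (6 * s + 5)) = 0 := by exact_mod_cast ZMod.natCast_self (6 * s + 5)
  have hh : (2 * ((3 * s + 2 : ℕ) : ZMod (6 * s + 5)) + 1) = 0 := by push_cast; linear_combination p0
  have n2 : (2 : ZMod (6 * s + 5)) ≠ 0 := by exact_mod_cast nz' 2 (by omega) (by omega)
  have n3 : (3 : ZMod (6 * s + 5)) ≠ 0 := by exact_mod_cast nz' 3 (by omega) (by omega)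
  have n4 : (4 : ZMod (6 * s + 5)) ≠ 0 := by exact_mod_cast nz' 4 (by omega) (by omega)
  have ode := ph_ode _ g hh hg
  have mon : ph (3 * s + 2) g = C ((ph (3 * s + 2) g).coeff (4 * s + 3)) * X ^ (4 * s + 3) := by
    ext j
    rw [coeff_C_mul, coeff_X_pow]
    split_ifs with hj
    · rw [hj, mul_one]
    rw [mul_zero]
    rcases lt_or_ge (3 * (3 * s + 2) + 1) j with h | h
    · exact coeff_eq_zero_of_natDegree_lt ((ph_deg _ g).trans_lt h)
    have c := congrArg (coeff · j) ode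
    have c2 : (X * derivative (ph (3 * s + 2) g)).coeff j = j * (ph (3 * s + 2) g).coeff j := by
      cases j with
      | zero => simp
      | succ j => rw [coeff_X_mul, coeff_derivative]; push_cast; ring
    simp only [coeff_add, coeff_ofNat_mul, c2, coeff_zero] at c
    refine (mul_eq_zero.1 (?_ : ((3 * j + 1 : ℕ) : ZMod (6 * s + 5)) * _ = 0)).resolve_left
      (nz _ ?_)
    · push_cast; linear_combination c
    · rintro ⟨k, hk⟩
      have : k < 5 := by by_contra hk5; nlinarith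
      interval_cases k <;> omega
  generalize (ph (3 * s + 2) g).coeff (4 * s + 3) = A at mon
  obtain ⟨q, hq⟩ : ∃ q : ZMod (6 * s + 5), 4 * q = 1 := ⟨4⁻¹, mul_inv_cancel₀ n4⟩
  have fr : ∀ x : ZMod (6 * s + 5), x ^ (2 * (3 * s + 2) + 1) = x := fun x => by
    rw [show 2 * (3 * s + 2) + 1 = 6 * s + 5 by ring]; exact ZMod.pow_card x
  have f2 : (4 : ZMod (6 * s + 5)) ^ (3 * s + 2) = 1 := by
    apply mul_right_cancel₀ n2
    rw [show (4 : ZMod (6 * s + 5)) = 2 ^ 2 by norm_num, ← pow_mul, ← pow_succ, fr, one_mul]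
  have qi : ∀ i, (4 : ZMod (6 * s + 5)) ^ i * q ^ i = 1 := fun i => by rw [← mul_pow, hq, one_pow]
  have ev : ∀ x, ∑ i ∈ range (3 * s + 2 + 1), g i * ((1 - x) * ((1 - x) ^ 3) ^ i *
      (27 * x ^ 2) ^ (3 * s + 2 - i) + (-1) ^ (3 * s + 2) * (x + 2) * x ^ i) =
      A * x ^ (4 * s + 3) := fun x => by
    have := congrArg (eval x) mon
    simp only [ph, pt, eval_finsetSum, eval_mul, eval_add, eval_pow, eval_C, eval_X, eval_sub, eval_one,
      eval_ofNat, eval_neg, fr] at this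
    rw [← this]
    exact sum_congr rfl fun i _ => by rw [mul_pow, ← pow_mul, ← pow_mul]; ring
  have e1 := ev 1
  have e2 := ev (-2)
  have e3 := ev q
  set γ := ∑ i ∈ range (3 * s + 2 + 1), g i * q ^ i with hγ
  have s1 : (-1) ^ (3 * s + 2) * 3 * ∑ i ∈ range (3 * s + 2 + 1), g i = A := by
    rw [one_pow (4 * s + 3), mul_one A] at e1
    rw [← e1, mul_sum]
    exact sum_congr rfl fun i _ => by ring
  have s2 : 3 * 27 ^ (3 * s + 2) * γ = A * (-2) ^ (4 * s + 3) := by
    rw [← e2, mul_sum]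
    refine sum_congr rfl fun i hi => ?_
    obtain ⟨j, hj⟩ : ∃ j, 3 * s + 2 = i + j := ⟨3 * s + 2 - i, by have := mem_range.1 hi; omega⟩
    have f := f2
    rw [hj] at f ⊢
    rw [Nat.add_sub_cancel_left, mul_pow]
    rw [pow_add] at f
    norm_num
    linear_combination (g i * 3 * 27 ^ (i + j)) * (4 ^ j * qi i - q ^ i * f)
  have s3 : 3 * q * 27 ^ (3 * s + 2) * γ + (-1) ^ (3 * s + 2) * (9 * q) * γ = A * q ^ (4 * s + 3) := by
    rw [← e3, mul_sum, mul_sum, ← sum_add_distrib]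
    refine sum_congr rfl fun i hi => ?_
    obtain ⟨j, hj⟩ : ∃ j, 3 * s + 2 = i + j := ⟨3 * s + 2 - i, by have := mem_range.1 hi; omega⟩
    have f : q ^ (i + j) = 1 := by rw [← hj, ← qi (3 * s + 2), f2, one_mul]
    rw [show 1 - q = 3 * q by linear_combination -hq, show q + 2 = 9 * q by
      linear_combination (-2) * hq, hj, Nat.add_sub_cancel_left, mul_pow, mul_pow, mul_pow,
      show (3 : ZMod (6 * s + 5)) ^ 3 = 27 by norm_num]
    linear_combination (-(g i * 3 * q * 27 ^ (i + j) * q ^ i * (q ^ (i + j) + 1))) * f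
  have s4 : γ * centralBinom (2 * s + 2) = 4 ^ (2 * s + 2) := by
    have m0 : ∀ i ≤ 3 * s + 2, ((2 * s + 2 : ℕ) : ZMod (6 * s + 5)) + i ≠ 0 := fun i hi => by
      exact_mod_cast nz' (2 * s + 2 + i) (by omega) (by omega)
    have be := beta _ _ m0
    have cp := cb_prod _ (2 * s + 2) hh fun j hj => by
      exact_mod_cast nz' (j + 1) (by omega) (by omega)
    have e : ∑ i ∈ range (3 * s + 2 + 1), ((3 * s + 2).choose i : ZMod (6 * s + 5)) *
        ((-1) ^ i / (((2 * s + 2 : ℕ) : ZMod (6 * s + 5)) + i)) = 3 * γ := by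
      rw [mul_sum]
      refine sum_congr rfl fun i hi => ?_
      have hi : i ≤ 3 * s + 2 := by have := mem_range.1 hi; omega
      have h1 := hg i hi
      rw [← mul_div_assoc, div_eq_iff (m0 i hi)]
      rw [show (-4 : ZMod (6 * s + 5)) = -1 * 4 by norm_num, mul_pow] at h1
      push_cast
      linear_combination -q ^ i * h1 - g i * q ^ i * p0 -
        ((3 * s + 2).choose i * (-1) ^ i : ZMod (6 * s + 5)) * qi i
    rw [e, prod_range_succ'] at be
    have f0 : (((3 * s + 2)! : ℕ) : ZMod (6 * s + 5)) ≠ 0 := nz _ fun h =>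
      absurd ((hp.out.dvd_factorial).1 h) (by omega)
    apply mul_right_cancel₀ f0
    generalize ∏ i ∈ range (3 * s + 2), (((2 * s + 2 : ℕ) : ZMod (6 * s + 5)) +
      ((i + 1 : ℕ) : ZMod (6 * s + 5))) = P at be cp
    push_cast at be
    linear_combination γ * cp + 4 ^ (2 * s + 2) * be - 4 ^ (2 * s + 2) * γ * P * p0
  have k1 : (-2 : ZMod (6 * s + 5)) ^ (4 * s + 3) * 4 ^ (4 * s + 3) = -2 := by
    rw [← mul_pow, show (-2 * 4 : ZMod (6 * s + 5)) = (-2) ^ 3 by norm_num, ← pow_mul,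
      show 3 * (4 * s + 3) = 2 * (3 * s + 2) + 1 + 2 * (3 * s + 2) by ring, pow_add, fr, pow_mul]
    norm_num [f2]
  have k2 : (4 : ZMod (6 * s + 5)) ^ (4 * s + 3) * 4 ^ (2 * s + 2) = 4 := by
    rw [← pow_add, show 4 * s + 3 + (2 * s + 2) = 2 * (3 * s + 2) + 1 by ring, fr]
  have k3 : ((-1 : ZMod (6 * s + 5)) ^ (3 * s + 2)) ≠ 0 := pow_ne_zero _ (by simp)
  have k4 : 6 * A = (-1) ^ (3 * s + 2) * 9 * γ * 4 ^ (4 * s + 3) := by
    linear_combination 4 ^ (4 * s + 3) * s2 - 4 * 4 ^ (4 * s + 3) * s3 + A * k1 -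
      4 * A * qi (4 * s + 3) + (3 * 27 ^ (3 * s + 2) * γ + (-1) ^ (3 * s + 2) * 9 * γ) *
      4 ^ (4 * s + 3) * hq
  apply mul_left_cancel₀ (mul_ne_zero (mul_ne_zero k3 (mul_ne_zero n3 n3)) n2)
  linear_combination (centralBinom (2 * s + 2) : ZMod (6 * s + 5)) * (6 * s1 + k4) +
    (-1) ^ (3 * s + 2) * 9 * (4 ^ (4 * s + 3) * s4 + k2)

theorem result (p : ℕ) (hp : p.Prime) (h3 : p % 3 = 2) :
    (p : ℤ) ^ 2 ∣ (((∑ k ∈ range p, a k : ℕ) : ℚ) -
      2 * p / ((2 * ((p + 1) / 3)).choose ((p + 1) / 3) : ℚ)).num := by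
  rcases hp.eq_two_or_odd with rfl | h2
  · simp [a, sum_range_succ]
  obtain ⟨s, rfl⟩ : ∃ s, p = 6 * s + 5 := ⟨p / 6, by omega⟩
  have := Fact.mk hp
  have nz' : ∀ j : ℕ, 0 < j → j < 6 * s + 5 → (j : ZMod (6 * s + 5)) ≠ 0 := fun j h0 h1 h =>
    absurd (Nat.le_of_dvd h0 ((ZMod.natCast_eq_zero_iff _ _).1 h)) (by omega)
  have p0 : (6 * s + 5 : ZMod (6 * s + 5)) = 0 := by exact_mod_cast ZMod.natCast_self (6 * s + 5)
  have c1 : ∀ k, k < 6 * s + 5 → ((6 * s + 4).choose k : ZMod (6 * s + 5)) = (-1) ^ k := by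
    intro k hk
    induction k with
    | zero => simp
    | succ k ih =>
      have := (ZMod.natCast_eq_zero_iff _ _).2 (hp.dvd_choose_self k.succ_ne_zero hk)
      rw [Nat.choose_succ_succ, Nat.cast_add, ih (by omega)] at this
      linear_combination this
  have t : ∀ i ≤ 3 * s + 2, ∃ c : ℕ, b (6 * s + 5) i = (6 * s + 5) * c ∧
      (3 * i + 1) * (c : ZMod (6 * s + 5)) = (3 * s + 2).choose i * (-4) ^ i := by
    intro i hi
    have e := b_eq (6 * s + 4) i (by omega)
    obtain ⟨c, hc⟩ := (hp.dvd_mul.1 (Dvd.intro _ e.symm)).resolve_left (by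
      rintro ⟨k, hk⟩
      have : k < 2 := by by_contra hk5; nlinarith
      interval_cases k <;> omega)
    refine ⟨c, hc, ?_⟩
    rw [hc, mul_left_comm] at e
    have e := congrArg (Nat.cast : ℕ → ZMod (6 * s + 5)) (Nat.eq_of_mul_eq_mul_left hp.pos e)
    have l := (ZMod.natCast_eq_natCast_iff _ _ _).2
      (Choose.choose_modEq_choose_mod_mul_choose_div_nat (p := 6 * s + 5) (n := 6 * s + 5 + i) (k := i))
    rw [Nat.add_mod_left, Nat.mod_eq_of_lt (by omega), Nat.div_eq_of_lt (a := i) (by omega)] at l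
    push_cast at e
    rw [l, c1 _ (by omega), cb_choose (3 * s + 2) i (by push_cast; linear_combination p0) hi
      fun j hj => by exact_mod_cast nz' (j + 1) (by omega) (by omega)] at e
    simpa using e
  choose! c hc using t
  have m := main s (fun i => c i) fun i hi => (hc i hi).2
  have e : ∑ k ∈ range (6 * s + 5), a k = (6 * s + 5) * ∑ i ∈ range (3 * s + 2 + 1), c i := by
    rw [mul_sum, ← sum_congr rfl fun i hi => (hc i (Nat.lt_succ_iff.1 (mem_range.1 hi))).1]
    have := sum_a (3 * s + 2)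
    rwa [show 2 * (3 * s + 2) + 1 = 6 * s + 5 by ring] at this
  rw [e, show (6 * s + 5 + 1) / 3 = 2 * s + 2 by omega, ← centralBinom]
  rw [← Nat.cast_sum] at m
  generalize ∑ i ∈ range (3 * s + 2 + 1), c i = S at m
  have B0 := (centralBinom_pos (2 * s + 2)).ne'
  generalize centralBinom (2 * s + 2) = B at m B0
  generalize 6 * s + 5 = p at *
  obtain ⟨w, hw⟩ := (ZMod.intCast_zmod_eq_zero_iff_dvd (S * B - 2) p).1 (by
    push_cast; rw [m, sub_self])
  have cop : IsCoprime ((p : ℤ) ^ 2) B := by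
    refine (Nat.isCoprime_iff_coprime.2 ((hp.coprime_iff_not_dvd).2 fun h => ?_)).pow_left
    rw [(ZMod.natCast_eq_zero_iff _ _).2 h, mul_zero] at m
    exact nz' 2 (by omega) (by have := hp.two_le; omega) (by exact_mod_cast m.symm)
  refine cop.dvd_of_dvd_mul_right ⟨w * (((p * S : ℕ) : ℚ) - 2 * p / (B : ℚ)).den, ?_⟩
  apply Int.cast_injective (α := ℚ)
  have hw' := congrArg (Int.cast : ℤ → ℚ) hw
  push_cast at hw' ⊢
  rw [← Rat.mul_den_eq_num]
  field_simp
  linear_combination p * hw'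

end Pool.Agent.Results.MP_ec79a8_nt.Yes
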